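import Pool.Agent.Y262.QE.Stm

/-!
# Project QE: monotone enumeration, minimax principle, comparison of eigenvalues, Weyl bound
-/

set_option autoImplicit false

open Set Filter Topology

namespace Pool.Agent.Y592.QE

open Pool.Agent.Y262.QE

theorem enum : StEnum := by
  intro ι _ f hf
  have hcount : Countable ι := by
    have h1 : (Set.univ : Set ι) = ⋃ n : ℕ, {i | f i ≤ n} := by
      ext i
      simp only [Set.mem_univ, Set.mem_iUnion, true_iff]
      obtain ⟨n, hn⟩ := exists_nat_ge (f i)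
      exact ⟨n, hn⟩
    have h2 : (Set.univ : Set ι).Countable := by
      rw [h1]
      exact Set.countable_iUnion fun n => (hf n).countable
    exact Set.countable_univ_iff.mp h2
  obtain ⟨enc, henc⟩ := hcount.exists_injective_nat
  let key : ι → ℝ ×ₗ ℕ := fun i => toLex (f i, enc i)
  have hkey : Function.Injective key := by
    intro i k h
    have h1 : (f i, enc i) = (f k, enc k) := toLex.injective h
    exact henc (Prod.mk.inj h1).2
  have hkf : ∀ i k, key i ≤ key k → f i ≤ f k := by
    intro i k h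
    rw [Prod.Lex.toLex_le_toLex] at h
    rcases h with h | ⟨h, -⟩
    · exact h.le
    · exact h.le
  have hfin : ∀ i, {k | key k < key i}.Finite := fun i =>
    (hf (f i)).subset fun k hk => hkf k i (le_of_lt hk)
  let r : ι → ℕ := fun i => {k | key k < key i}.ncard
  have hr : ∀ i k, key i < key k → r i < r k := by
    intro i k h
    apply Set.ncard_lt_ncard _ (hfin k)
    refine ⟨fun x hx => lt_trans hx h, fun hcon => ?_⟩
    have h2 : key i < key i := hcon h
    exact lt_irrefl _ h2
  have hmin : ∀ S : Set ι, S.Nonempty → ∃ k ∈ S, ∀ x ∈ S, key k ≤ key x := by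
    intro S hS
    obtain ⟨k, hk, hmin⟩ := (measure r).wf.has_min S hS
    refine ⟨k, hk, fun x hx => ?_⟩
    by_contra hcon
    exact hmin x hx (hr x k (not_le.mp hcon))
  have hrinj : Function.Injective r := by
    intro i k h
    apply hkey
    rcases lt_trichotomy (key i) (key k) with h1 | h1 | h1
    · exact absurd h (hr i k h1).ne
    · exact h1
    · exact absurd h (hr k i h1).ne'
  have hrsurj : Function.Surjective r := by
    intro n
    induction n with
    | zero =>
      obtain ⟨k, -, hk⟩ := hmin Set.univ Set.univ_nonempty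
      refine ⟨k, ?_⟩
      have h1 : {x | key x < key k} = ∅ := by
        ext x
        simp only [Set.mem_ofPred_eq, Set.mem_empty_iff_false, iff_false, not_lt]
        exact hk x (Set.mem_univ x)
      show {x | key x < key k}.ncard = 0
      rw [h1, Set.ncard_empty]
    | succ n ih =>
      obtain ⟨i, hi⟩ := ih
      have hne : {x | key i < key x}.Nonempty := by
        by_contra hcon
        rw [Set.not_nonempty_iff_eq_empty] at hcon
        have h1 : (Set.univ : Set ι) ⊆ insert i {x | key x < key i} := by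
          intro x _
          rcases lt_trichotomy (key x) (key i) with h2 | h2 | h2
          · exact Or.inr h2
          · exact Or.inl (hkey h2)
          · exact absurd (show x ∈ {x | key i < key x} from h2) (by rw [hcon]; simp)
        exact Set.infinite_univ (((hfin i).insert i).subset h1)
      obtain ⟨k, hk, hkm⟩ := hmin _ hne
      refine ⟨k, ?_⟩
      have h1 : {x | key x < key k} = insert i {x | key x < key i} := by
        ext x
        simp only [Set.mem_ofPred_eq, Set.mem_insert_iff]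
        constructor
        · intro hx
          rcases lt_trichotomy (key x) (key i) with h2 | h2 | h2
          · exact Or.inr h2
          · exact Or.inl (hkey h2)
          · exact absurd hx (not_lt.mpr (hkm x h2))
        · rintro (rfl | hx)
          · exact hk
          · exact lt_trans hx hk
      show {x | key x < key k}.ncard = n + 1
      rw [h1, Set.ncard_insert_of_notMem (by simp) (hfin i)]
      have h2 : {x | key x < key i}.ncard = n := hi
      rw [h2]
  refine ⟨(Equiv.ofBijective r ⟨hrinj, hrsurj⟩).symm, ?_⟩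
  intro n m hnm
  set g := (Equiv.ofBijective r ⟨hrinj, hrsurj⟩).symm with hg
  have hrg : ∀ n, r (g n) = n := fun n => (Equiv.ofBijective r ⟨hrinj, hrsurj⟩).apply_symm_apply n
  apply hkf
  by_contra hcon
  have h1 := hr _ _ (not_le.mp hcon)
  rw [hrg, hrg] at h1
  exact absurd hnm (not_le.mpr h1)

section forms

variable {H : Type} [NormedAddCommGroup H] [InnerProductSpace ℝ H]

theorem b_sum_left (b : H →L[ℝ] H →L[ℝ] ℝ) {n : ℕ} (c : Fin n → ℝ) (e : Fin n → H) (w : H) :
    b (∑ i, c i • e i) w = ∑ i, c i * b (e i) w := by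
  rw [map_sum, ContinuousLinearMap.sum_apply]
  apply Finset.sum_congr rfl
  intro i _
  rw [map_smul, ContinuousLinearMap.smul_apply, smul_eq_mul]

theorem b_sum_right (b : H →L[ℝ] H →L[ℝ] ℝ) {n : ℕ} (c : Fin n → ℝ) (e : Fin n → H) (w : H) :
    b w (∑ i, c i • e i) = ∑ i, c i * b w (e i) := by
  rw [map_sum]
  apply Finset.sum_congr rfl
  intro i _
  rw [map_smul, smul_eq_mul]

theorem b_orth_coef (b : H →L[ℝ] H →L[ℝ] ℝ) {n : ℕ} {e : Fin n → H}
    (he : ∀ i j, b (e i) (e j) = if i = j then 1 else 0) (c : Fin n → ℝ) (k : Fin n) :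
    b (e k) (∑ i, c i • e i) = c k := by
  rw [b_sum_right]
  simp [he]

theorem b_orth_self (b : H →L[ℝ] H →L[ℝ] ℝ) {n : ℕ} {e : Fin n → H}
    (he : ∀ i j, b (e i) (e j) = if i = j then 1 else 0) (c : Fin n → ℝ) :
    b (∑ i, c i • e i) (∑ i, c i • e i) = ∑ i, c i ^ 2 := by
  rw [b_sum_left]
  apply Finset.sum_congr rfl
  intro i _
  rw [b_orth_coef b he, pow_two]

theorem orth_fin (b : H →L[ℝ] H →L[ℝ] ℝ) {e : ℕ → H}
    (he : ∀ i j, b (e i) (e j) = if i = j then 1 else 0) (n : ℕ) (i j : Fin n) :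
    b (e i) (e j) = if i = j then 1 else 0 := by
  rw [he]
  by_cases h : i = j
  · rw [if_pos h, if_pos (by rw [h])]
  · rw [if_neg h, if_neg (fun h' => h (Fin.ext h'))]

theorem li_orth (b : H →L[ℝ] H →L[ℝ] ℝ) {n : ℕ} {e : Fin n → H}
    (he : ∀ i j, b (e i) (e j) = if i = j then 1 else 0) : LinearIndependent ℝ e := by
  rw [Fintype.linearIndependent_iff]
  intro c hc k
  have h := b_orth_coef b he c k
  rw [hc, map_zero] at h
  exact h.symm

theorem finrank_orth (b : H →L[ℝ] H →L[ℝ] ℝ) {j : ℕ} {e : Fin (j + 1) → H}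
    (he : ∀ i j, b (e i) (e j) = if i = j then 1 else 0) :
    Module.finrank ℝ (Submodule.span ℝ (Set.range e)) = j + 1 := by
  rw [finrank_span_eq_card (li_orth b he), Fintype.card_fin]

theorem nonempty_set {a b : H →L[ℝ] H →L[ℝ] ℝ} (hF : Fm a b) (j : ℕ) :
    {lam | 0 ≤ lam ∧ HD a b lam j}.Nonempty := by
  obtain ⟨e, he⟩ := hF.inf
  set e' : Fin (j + 1) → H := fun i => e i with he'
  have ho := orth_fin b he (j + 1)
  refine ⟨‖a‖ * ∑ i, ‖e' i‖ ^ 2, by positivity, Submodule.span ℝ (Set.range e'),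
    finrank_orth b ho, ?_⟩
  intro v hv
  rw [Submodule.mem_span_range_iff_exists_fun] at hv
  obtain ⟨c, rfl⟩ := hv
  rw [b_orth_self b ho]
  set v := ∑ i, c i • e' i with hv
  have h1 : a v v ≤ ‖a‖ * ‖v‖ * ‖v‖ := (le_abs_self _).trans (a.le_opNorm₂ v v)
  have h2 : ‖v‖ ≤ ∑ i, |c i| * ‖e' i‖ := by
    refine (norm_sum_le _ _).trans (le_of_eq ?_)
    apply Finset.sum_congr rfl
    intro i _
    rw [norm_smul, Real.norm_eq_abs]
  have h3 : (∑ i, |c i| * ‖e' i‖) ^ 2 ≤ (∑ i, |c i| ^ 2) * ∑ i, ‖e' i‖ ^ 2 :=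
    Finset.sum_mul_sq_le_sq_mul_sq _ _ _
  have h4 : ‖v‖ * ‖v‖ ≤ (∑ i, ‖e' i‖ ^ 2) * ∑ i, c i ^ 2 := by
    have h5 : ‖v‖ * ‖v‖ ≤ (∑ i, |c i| * ‖e' i‖) ^ 2 := by
      rw [← pow_two]
      exact pow_le_pow_left₀ (norm_nonneg _) h2 2
    simp only [sq_abs] at h3
    linarith
  calc a v v ≤ ‖a‖ * (‖v‖ * ‖v‖) := by linarith
    _ ≤ ‖a‖ * ((∑ i, ‖e' i‖ ^ 2) * ∑ i, c i ^ 2) := mul_le_mul_of_nonneg_left h4 (ContinuousLinearMap.opNorm_nonneg a)
    _ = ‖a‖ * (∑ i, ‖e' i‖ ^ 2) * ∑ i, c i ^ 2 := by ring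

theorem bdd_set (a b : H →L[ℝ] H →L[ℝ] ℝ) (j : ℕ) : BddBelow {lam | 0 ≤ lam ∧ HD a b lam j} :=
  ⟨0, fun _ h => h.1⟩

/-- a vector at which few functionals vanish -/
theorem exists_ker {V : Submodule ℝ H} {j N : ℕ} (hV : Module.finrank ℝ V = j + 1)
    (l : Fin N → H →L[ℝ] ℝ) (hN : N < j + 1) : ∃ v ∈ V, v ≠ 0 ∧ ∀ i, l i v = 0 := by
  have hfin : Module.Finite ℝ V := Module.finite_of_finrank_pos (by rw [hV]; exact Nat.succ_pos j)
  let φ : V →ₗ[ℝ] (Fin N → ℝ) := LinearMap.pi fun i => (l i : H →ₗ[ℝ] ℝ).comp V.subtype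
  have h1 : LinearMap.ker φ ≠ ⊥ := by
    apply LinearMap.ker_ne_bot_of_finrank_lt
    rw [hV, Module.finrank_fin_fun]
    exact hN
  obtain ⟨v, hv, hv0⟩ := Submodule.exists_mem_ne_zero_of_ne_bot h1
  refine ⟨v, v.2, fun h => hv0 (Subtype.ext h), fun i => ?_⟩
  have h2 := congrFun (LinearMap.mem_ker.mp hv) i
  exact h2

theorem b_pos {a b : H →L[ℝ] H →L[ℝ] ℝ} (hF : Fm a b) {lam : ℝ} {v : H} (hv : v ≠ 0)
    (h : a v v ≤ lam * b v v) : 0 < b v v := by
  obtain ⟨c, hc, hco⟩ := hF.co
  rcases (hF.nb v).lt_or_eq with h1 | h1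
  · exact h1
  · exfalso
    rw [← h1, mul_zero] at h
    have h2 := hco v
    rw [← h1] at h2
    have h3 : 0 < ‖v‖ := norm_pos_iff.mpr hv
    have h4 : 0 < c * ‖v‖ ^ 2 := by positivity
    linarith

end forms

theorem mon : StMon := by
  intro H _ _ a b b' hF hF' c hc hbb j
  refine ⟨Real.sInf_nonneg fun x hx => hx.1, ?_⟩
  have h1 : Ev a b' j / c ≤ Ev a b j := by
    apply le_csInf (nonempty_set hF j)
    rintro lam ⟨h0, V, hV, hVa⟩
    rw [div_le_iff₀ hc]
    apply csInf_le (bdd_set a b' j)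
    refine ⟨by positivity, V, hV, fun v hv => ?_⟩
    refine (hVa v hv).trans ?_
    rw [mul_assoc]
    exact mul_le_mul_of_nonneg_left (hbb v) h0
  rw [div_le_iff₀ hc] at h1
  linarith

theorem mm : StMM := by
  intro H _ _ a b hF e E hE j
  have hE0 : ∀ i, 0 ≤ E i := by
    intro i
    have h1 := hE.eig i (e i)
    rw [hE.orth, if_pos rfl, mul_one] at h1
    rw [← h1]
    exact hF.na _
  apply le_antisymm
  · apply csInf_le (bdd_set a b j)
    have ho := orth_fin b hE.orth (j + 1)
    refine ⟨hE0 j, Submodule.span ℝ (Set.range fun i : Fin (j + 1) => e i), finrank_orth b ho, ?_⟩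
    intro v hv
    rw [Submodule.mem_span_range_iff_exists_fun] at hv
    obtain ⟨c, rfl⟩ := hv
    rw [b_orth_self b ho, b_sum_left, Finset.mul_sum]
    apply Finset.sum_le_sum
    intro i _
    rw [hE.eig, b_orth_coef b ho]
    have h1 : E i ≤ E j := hE.mono (Nat.lt_succ_iff.mp i.2)
    have h2 := mul_le_mul_of_nonneg_right h1 (sq_nonneg (c i))
    linarith
  · apply le_csInf (nonempty_set hF j)
    rintro lam ⟨h0, V, hV, hVa⟩
    obtain ⟨v, hv, hv0, hvl⟩ := exists_ker hV (N := j) (fun i => b.flip (e i)) (Nat.lt_succ_self j)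
    have hbpos := b_pos hF hv0 (hVa v hv)
    have hvl' : ∀ i : ℕ, i < j → b v (e i) = 0 := fun i hi => hvl ⟨i, hi⟩
    have hclaim : E j * b v v ≤ a v v := by
      have hlim := (hE.sum v).tendsto_sum_nat
      have hlim2 : Tendsto (fun n => E j * ∑ i ∈ Finset.range n, (b v (e i)) ^ 2) atTop
          (𝓝 (E j * b v v)) := hlim.const_mul _
      apply le_of_tendsto' hlim2
      intro n
      have ho := orth_fin b hE.orth n
      set β : Fin n → ℝ := fun i => b v (e i) with hβ
      set w : H := ∑ i, β i • e i with hw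
      have hwv : a w v = ∑ i : Fin n, E i * β i ^ 2 := by
        rw [hw, b_sum_left]
        apply Finset.sum_congr rfl
        intro i _
        rw [hE.eig, hF.sb]
        show β i * (E i * β i) = _
        ring
      have hww : a w w = ∑ i : Fin n, E i * β i ^ 2 := by
        rw [hw, b_sum_left]
        apply Finset.sum_congr rfl
        intro i _
        rw [hE.eig, b_orth_coef b ho]
        ring
      have h1 := hF.na (v - w)
      have h2 : a (v - w) (v - w) = a v v - a w v - a v w + a w w := by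
        simp only [map_sub, ContinuousLinearMap.sub_apply]
        ring
      rw [h2, hF.sa v w, hwv, hww] at h1
      have h3 : E j * ∑ i ∈ Finset.range n, (b v (e i)) ^ 2 ≤ ∑ i : Fin n, E i * β i ^ 2 := by
        rw [Finset.mul_sum, Finset.sum_range]
        apply Finset.sum_le_sum
        intro i _
        rcases lt_or_ge (i : ℕ) j with h4 | h4
        · have h5 : β i = 0 := hvl' i h4
          have h6 : b v (e i) = 0 := hvl' i h4
          rw [h5, h6]
          simp
        · exact mul_le_mul_of_nonneg_right (hE.mono h4) (sq_nonneg _)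
      linarith
    have h1 := hclaim.trans (hVa v hv)
    exact le_of_mul_le_mul_right h1 hbpos

theorem cnt : StCnt := by
  intro H _ _ a b hF C hW j lam hlam hEv
  have hC : 0 ≤ C := by
    obtain ⟨N, -, hN, -⟩ := hW 1 one_pos le_rfl
    rw [div_one] at hN
    exact (Nat.cast_nonneg N).trans hN
  have key : ∀ δ : ℝ, 0 < δ → ((j : ℝ) + 1) ≤ 2 * C * (lam + δ) := by
    intro δ hδ
    obtain ⟨lam', ⟨h0, V, hV, hVa⟩, hlt⟩ := exists_lt_of_csInf_lt (nonempty_set hF j)
      (show sInf {lam | 0 ≤ lam ∧ HD a b lam j} < lam + δ from lt_of_le_of_lt hEv (by linarith))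
    have hl2 : 0 < lam + δ := by linarith
    obtain ⟨N, l, hN, hNb⟩ := hW (1 / (2 * (lam + δ))) (by positivity) (by
      rw [div_le_one (by positivity)]
      linarith)
    have hN2 : (N : ℝ) ≤ 2 * C * (lam + δ) := by
      refine hN.trans (le_of_eq ?_)
      field_simp
    by_contra hcon
    push Not at hcon
    have hNj : N < j + 1 := by
      have : (N : ℝ) < (j : ℝ) + 1 := lt_of_le_of_lt hN2 hcon
      exact_mod_cast this
    obtain ⟨v, hv, hv0, hvl⟩ := exists_ker hV l hNj
    have h1 := hNb v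
    simp only [hvl] at h1
    have h2 : a v v ≤ (lam + δ) * b v v :=
      (hVa v hv).trans (mul_le_mul_of_nonneg_right hlt.le (hF.nb v))
    have hbpos := b_pos hF hv0 h2
    have h3 : 1 / (2 * (lam + δ)) * a v v ≤ b v v / 2 := by
      calc 1 / (2 * (lam + δ)) * a v v ≤ 1 / (2 * (lam + δ)) * ((lam + δ) * b v v) :=
            mul_le_mul_of_nonneg_left h2 (by positivity)
        _ = b v v / 2 := by field_simp
    have h4 : (∑ _i : Fin N, (0 : ℝ) ^ 2) = 0 := by simp
    rw [h4] at h1
    linarith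
  apply le_of_forall_pos_le_add
  intro ε hε
  have h1 := key (ε / (2 * C + 1)) (by positivity)
  have h2 : 2 * C * (ε / (2 * C + 1)) ≤ ε := by
    rw [← mul_div_assoc, div_le_iff₀ (by positivity)]
    nlinarith
  linarith

end Pool.Agent.Y592.QE
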